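import Mathlib

set_option autoImplicit false

open Filter Topology MeasureTheory

namespace Pool.PlateCompliance

/-- Euclidean space. -/
abbrev Eu (N : ℕ) := EuclideanSpace ℝ (Fin N)

/-- Smooth functions with compact support inside `Ω`. -/
def IsTest {N : ℕ} (Ω : Set (Eu N)) (φ : Eu N → ℝ) : Prop :=
  ContDiff ℝ ((⊤ : ℕ∞) : WithTop ℕ∞) φ ∧ HasCompactSupport φ ∧ tsupport φ ⊆ Ω

/-- coordinate vector -/
noncomputable abbrev ev {N : ℕ} (i : Fin N) : Eu N := EuclideanSpace.single i (1 : ℝ)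

/-- partial derivative -/
noncomputable def pd {N : ℕ} (i : Fin N) (φ : Eu N → ℝ) : Eu N → ℝ :=
  fun x => fderiv ℝ φ x (ev i)

/-- Laplacian -/
noncomputable def lap {N : ℕ} (φ : Eu N → ℝ) : Eu N → ℝ :=
  fun x => ∑ i, pd i (pd i φ) x

/-- Bilaplacian as in the frozen statement -/
noncomputable def bilap {N : ℕ} (ψ : Eu N → ℝ) : Eu N → ℝ :=
  fun x => ∑ i : Fin N, ∑ j : Fin N, iteratedFDeriv ℝ 4 ψ x ![ev i, ev i, ev j, ev j]

variable {N : ℕ} {Ω : Set (Eu N)} {φ ψ : Eu N → ℝ}

theorem IsTest.pd (h : IsTest Ω φ) (i : Fin N) : IsTest Ω (pd i φ) := by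
  refine ⟨?_, ?_, ?_⟩
  · have : ContDiff ℝ ((⊤ : ℕ∞) : WithTop ℕ∞) (fderiv ℝ φ) :=
      h.1.fderiv_right (m := ((⊤ : ℕ∞) : WithTop ℕ∞)) (by norm_cast)
    exact this.clm_apply contDiff_const
  · exact h.2.1.fderiv_apply (𝕜 := ℝ) (ev i)
  · exact (tsupport_fderiv_apply_subset ℝ (ev i)).trans h.2.2

theorem IsTest.add (h : IsTest Ω φ) (h' : IsTest Ω ψ) : IsTest Ω (φ + ψ) :=
  ⟨h.1.add h'.1, h.2.1.add h'.2.1, (tsupport_add φ ψ).trans (Set.union_subset h.2.2 h'.2.2)⟩

theorem IsTest.smul (c : ℝ) (h : IsTest Ω φ) : IsTest Ω (c • φ) := by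
  refine ⟨h.1.const_smul c, ?_, ?_⟩
  · exact h.2.1.smul_left (f := fun _ => c)
  · exact (tsupport_smul_subset_right (fun _ => c) φ).trans h.2.2

theorem IsTest.zero : IsTest Ω (0 : Eu N → ℝ) := by
  refine ⟨contDiff_zero_fun, HasCompactSupport.zero, ?_⟩
  simp [tsupport_zero]

theorem IsTest.neg (h : IsTest Ω φ) : IsTest Ω (-φ) := by
  have := h.smul (-1)
  simpa using this

theorem IsTest.sub (h : IsTest Ω φ) (h' : IsTest Ω ψ) : IsTest Ω (φ - ψ) := by
  rw [sub_eq_add_neg]; exact h.add h'.neg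

theorem IsTest.differentiable (h : IsTest Ω φ) : Differentiable ℝ φ :=
  h.1.differentiable (by simp)

theorem IsTest.continuous (h : IsTest Ω φ) : Continuous φ := h.1.continuous

theorem IsTest.integrable (h : IsTest Ω φ) : Integrable φ :=
  h.continuous.integrable_of_hasCompactSupport h.2.1

theorem IsTest.integrable_mul (h : IsTest Ω φ) (h' : IsTest Ω ψ) :
    Integrable (fun x => φ x * ψ x) :=
  (h.continuous.mul h'.continuous).integrable_of_hasCompactSupport (h.2.1.mul_right)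

theorem IsTest.memLp (h : IsTest Ω φ) (p : ENNReal) : MemLp φ p volume :=
  h.continuous.memLp_of_hasCompactSupport h.2.1

theorem pd_add (h : IsTest Ω φ) (h' : IsTest Ω ψ) (i : Fin N) :
    pd i (φ + ψ) = pd i φ + pd i ψ := by
  funext x
  simp only [pd, Pi.add_apply]
  rw [fderiv_add (h.differentiable x) (h'.differentiable x)]
  rfl

theorem pd_smul (c : ℝ) (h : IsTest Ω φ) (i : Fin N) :
    pd i (c • φ) = c • pd i φ := by
  funext x
  simp only [pd, Pi.smul_apply]
  rw [fderiv_const_smul (h.differentiable x)]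
  rfl

theorem IsTest.sum {ι : Type*} (s : Finset ι) (f : ι → Eu N → ℝ) (h : ∀ i ∈ s, IsTest Ω (f i)) :
    IsTest Ω (fun x => ∑ i ∈ s, f i x) := by
  classical
  induction s using Finset.induction_on with
  | empty =>
    have : (fun x : Eu N => ∑ i ∈ (∅ : Finset ι), f i x) = 0 := by funext x; simp
    rw [this]; exact IsTest.zero
  | insert a s ha ih =>
    have h1 := h a (Finset.mem_insert_self a s)
    have h2 := ih (fun i hi => h i (Finset.mem_insert_of_mem hi))
    have : (fun x => ∑ i ∈ insert a s, f i x) = f a + fun x => ∑ i ∈ s, f i x := by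
      funext x; simp [Finset.sum_insert ha]
    rw [this]
    exact h1.add h2

theorem pd_sum {ι : Type*} (s : Finset ι) (f : ι → Eu N → ℝ) (h : ∀ i ∈ s, IsTest Ω (f i))
    (j : Fin N) : pd j (fun x => ∑ i ∈ s, f i x) = fun x => ∑ i ∈ s, pd j (f i) x := by
  classical
  induction s using Finset.induction_on with
  | empty => funext x; simp [pd]
  | insert a s ha ih =>
    have h1 := h a (Finset.mem_insert_self a s)
    have h2 := IsTest.sum s f (fun i hi => h i (Finset.mem_insert_of_mem hi))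
    have e1 : (fun x => ∑ i ∈ insert a s, f i x) = f a + fun x => ∑ i ∈ s, f i x := by
      funext x; simp [Finset.sum_insert ha]
    rw [e1, pd_add h1 h2, ih (fun i hi => h i (Finset.mem_insert_of_mem hi))]
    funext x; simp [Finset.sum_insert ha]

theorem IsTest.lap (h : IsTest Ω φ) : IsTest Ω (lap φ) :=
  IsTest.sum _ _ (fun i _ => (h.pd i).pd i)

theorem lap_add (h : IsTest Ω φ) (h' : IsTest Ω ψ) : lap (φ + ψ) = lap φ + lap ψ := by
  funext x
  simp only [lap, Pi.add_apply]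
  rw [← Finset.sum_add_distrib]
  refine Finset.sum_congr rfl fun i _ => ?_
  rw [pd_add h h', pd_add (h.pd i) (h'.pd i)]; rfl

theorem lap_smul (c : ℝ) (h : IsTest Ω φ) : lap (c • φ) = c • lap φ := by
  funext x
  simp only [lap, Pi.smul_apply, smul_eq_mul]
  rw [Finset.mul_sum]
  refine Finset.sum_congr rfl fun i _ => ?_
  rw [pd_smul c h, pd_smul c (h.pd i)]; rfl

/-- integration by parts -/
theorem ibp (h : IsTest Ω φ) (h' : IsTest Ω ψ) (i : Fin N) :
    ∫ x, φ x * pd i ψ x = - ∫ x, pd i φ x * ψ x := by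
  unfold pd
  apply integral_mul_fderiv_eq_neg_fderiv_mul_of_integrable
  · exact (h.pd i).integrable_mul h'
  · exact h.integrable_mul (h'.pd i)
  · exact h.integrable_mul h'
  · intro x _; exact h.differentiable x
  · intro x _; exact h'.differentiable x

theorem pd_comm (h : IsTest Ω φ) (i j : Fin N) : pd i (pd j φ) = pd j (pd i φ) := by
  funext x
  have hd : ContDiff ℝ 2 φ := h.1.of_le (by norm_cast)
  have hs : IsSymmSndFDerivAt ℝ φ x := hd.contDiffAt.isSymmSndFDerivAt (by simp)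
  have hdd : Differentiable ℝ (fderiv ℝ φ) :=
    (hd.fderiv_right (m := 1) (by norm_num)).differentiable (by simp)
  have key : ∀ a b : Eu N, fderiv ℝ (fun y => fderiv ℝ φ y a) x b = fderiv ℝ (fderiv ℝ φ) x b a := by
    intro a b
    rw [fderiv_clm_apply (hdd x) (differentiableAt_const a)]
    simp
  show fderiv ℝ (fun y => fderiv ℝ φ y (ev j)) x (ev i) = fderiv ℝ (fun y => fderiv ℝ φ y (ev i)) x (ev j)
  rw [key, key]
  exact hs (ev i) (ev j)

theorem snd_eq (h : IsTest Ω φ) (i j : Fin N) (x : Eu N) :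
    fderiv ℝ (fderiv ℝ φ) x (ev i) (ev j) = pd i (pd j φ) x := by
  have hd : ContDiff ℝ 2 φ := h.1.of_le (by norm_cast)
  have hdd : Differentiable ℝ (fderiv ℝ φ) :=
    (hd.fderiv_right (m := 1) (by norm_num)).differentiable (by simp)
  show _ = fderiv ℝ (fun y => fderiv ℝ φ y (ev j)) x (ev i)
  rw [fderiv_clm_apply (hdd x) (differentiableAt_const (ev j))]
  simp

/-- iterated derivative in terms of partial derivatives -/
theorem iter_succ (n : ℕ) (h : IsTest Ω φ) (a : Fin N) (v : Fin n → Fin N) (x : Eu N) :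
    iteratedFDeriv ℝ (n+1) φ x (Fin.cons (ev a) (fun k => ev (v k)))
      = pd a (fun y => iteratedFDeriv ℝ n φ y (fun k => ev (v k))) x := by
  rw [iteratedFDeriv_succ_apply_left]
  simp only [Fin.cons_zero]
  unfold pd
  have hdd : DifferentiableAt ℝ (iteratedFDeriv ℝ n φ) x :=
    (h.1.differentiable_iteratedFDeriv (m := n) (by norm_cast; exact WithTop.coe_lt_top n)) x
  set A := (ContinuousMultilinearMap.apply ℝ (fun _ : Fin n => Eu N) ℝ (fun k => ev (v k)))
  have h2 : HasFDerivAt (fun y => A (iteratedFDeriv ℝ n φ y))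
      (A.comp (fderiv ℝ (iteratedFDeriv ℝ n φ) x)) x :=
    A.hasFDerivAt.comp x hdd.hasFDerivAt
  show _ = fderiv ℝ (fun y => A (iteratedFDeriv ℝ n φ y)) x (ev a)
  rw [h2.fderiv]
  rfl

theorem iter_zero (v : Fin 0 → Fin N) (x : Eu N) :
    iteratedFDeriv ℝ 0 φ x (fun k => ev (v k)) = φ x := by
  simp

theorem iter_four (h : IsTest Ω φ) (i j : Fin N) (x : Eu N) :
    iteratedFDeriv ℝ 4 φ x ![ev i, ev i, ev j, ev j] = pd i (pd i (pd j (pd j φ))) x := by
  have e0 : (fun y : Eu N => iteratedFDeriv ℝ 0 φ y (fun k => ev ((![] : Fin 0 → Fin N) k))) = φ := by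
    funext y; simp
  have c1 : (fun k : Fin 1 => (ev ((![j] : Fin 1 → Fin N) k) : Eu N))
      = Fin.cons (ev j) (fun k => ev ((![] : Fin 0 → Fin N) k)) := by
    funext k; fin_cases k; rfl
  have c2 : (fun k : Fin 2 => (ev ((![j, j] : Fin 2 → Fin N) k) : Eu N))
      = Fin.cons (ev j) (fun k => ev ((![j] : Fin 1 → Fin N) k)) := by
    funext k; fin_cases k <;> rfl
  have c3 : (fun k : Fin 3 => (ev ((![i, j, j] : Fin 3 → Fin N) k) : Eu N))
      = Fin.cons (ev i) (fun k => ev ((![j, j] : Fin 2 → Fin N) k)) := by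
    funext k; fin_cases k <;> rfl
  have c4 : (![ev i, ev i, ev j, ev j] : Fin 4 → Eu N)
      = Fin.cons (ev i) (fun k => ev ((![i, j, j] : Fin 3 → Fin N) k)) := by
    funext k; fin_cases k <;> rfl
  have e1 : (fun y : Eu N => iteratedFDeriv ℝ 1 φ y (fun k => ev ((![j] : Fin 1 → Fin N) k)))
      = pd j φ := by
    funext y
    rw [c1, iter_succ 0 h, e0]
  have e2 : (fun y : Eu N => iteratedFDeriv ℝ 2 φ y (fun k => ev ((![j, j] : Fin 2 → Fin N) k)))
      = pd j (pd j φ) := by
    funext y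
    rw [c2, iter_succ 1 h, e1]
  have e3 : (fun y : Eu N => iteratedFDeriv ℝ 3 φ y (fun k => ev ((![i, j, j] : Fin 3 → Fin N) k)))
      = pd i (pd j (pd j φ)) := by
    funext y
    rw [c3, iter_succ 2 h, e2]
  rw [c4, iter_succ 3 h, e3]

theorem bilap_eq (h : IsTest Ω φ) : bilap φ = lap (lap φ) := by
  funext x
  have e : ∀ i : Fin N, pd i (pd i (lap φ)) = fun x => ∑ j, pd i (pd i (pd j (pd j φ))) x := by
    intro i
    have h1 : pd i (lap φ) = fun x => ∑ j, pd i (pd j (pd j φ)) x :=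
      pd_sum (Ω := Ω) Finset.univ (fun j => pd j (pd j φ)) (fun j _ => (h.pd j).pd j) i
    rw [h1]
    exact pd_sum (Ω := Ω) Finset.univ (fun j => pd i (pd j (pd j φ)))
      (fun j _ => ((h.pd j).pd j).pd i) i
  simp only [bilap]
  show _ = ∑ i, pd i (pd i (lap φ)) x
  refine Finset.sum_congr rfl fun i _ => ?_
  rw [e i]
  refine Finset.sum_congr rfl fun j _ => ?_
  exact iter_four h i j x

theorem integral_lap_comm (h : IsTest Ω φ) (h' : IsTest Ω ψ) :
    ∫ x, φ x * lap ψ x = ∫ x, lap φ x * ψ x := by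
  have h1 : ∀ x, φ x * lap ψ x = ∑ i, φ x * pd i (pd i ψ) x := by
    intro x; simp only [lap]; rw [Finset.mul_sum]
  have h2 : ∀ x, lap φ x * ψ x = ∑ i, pd i (pd i φ) x * ψ x := by
    intro x; simp only [lap]; rw [Finset.sum_mul]
  simp_rw [h1, h2]
  rw [integral_finsetSum, integral_finsetSum]
  · refine Finset.sum_congr rfl fun i _ => ?_
    rw [ibp h (h'.pd i) i]
    have := ibp (h.pd i) h' i
    rw [this]; ring
  · intro i _; exact ((h.pd i).pd i).integrable_mul h'
  · intro i _; exact h.integrable_mul ((h'.pd i).pd i)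

theorem integral_bilap (h : IsTest Ω φ) (h' : IsTest Ω ψ) :
    ∫ x, φ x * bilap ψ x = ∫ x, lap φ x * lap ψ x := by
  rw [bilap_eq h', integral_lap_comm h h'.lap]

/-- the Dirichlet integral -/
theorem integral_grad (h : IsTest Ω φ) :
    ∫ x, ∑ i, pd i φ x ^ 2 = - ∫ x, φ x * lap φ x := by
  have h1 : ∀ x, φ x * lap φ x = ∑ i, φ x * pd i (pd i φ) x := by
    intro x; simp only [lap]; rw [Finset.mul_sum]
  simp_rw [h1]
  rw [integral_finsetSum, integral_finsetSum, ← Finset.sum_neg_distrib]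
  · refine Finset.sum_congr rfl fun i _ => ?_
    rw [ibp h (h.pd i) i, neg_neg]
    congr 1; funext x; ring
  · intro i _; exact h.integrable_mul ((h.pd i).pd i)
  · intro i _
    have := (h.pd i).integrable_mul (h.pd i)
    refine this.congr (Filter.Eventually.of_forall fun x => ?_)
    simp only; ring

theorem integral_hess (h : IsTest Ω φ) :
    ∫ x, ∑ i, ∑ j, pd i (pd j φ) x ^ 2 = ∫ x, lap φ x ^ 2 := by
  have h1 : ∀ x, lap φ x ^ 2 = ∑ i, ∑ j, pd i (pd i φ) x * pd j (pd j φ) x := by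
    intro x
    simp only [lap]
    rw [sq, Finset.sum_mul_sum]
  simp_rw [h1]
  have hsq : ∀ i j : Fin N, Integrable (fun x => pd i (pd j φ) x ^ 2) := by
    intro i j
    refine (((h.pd j).pd i).integrable_mul ((h.pd j).pd i)).congr
      (Filter.Eventually.of_forall fun x => ?_)
    simp only; ring
  have hmul : ∀ i j : Fin N, Integrable (fun x => pd i (pd i φ) x * pd j (pd j φ) x) := by
    intro i j
    exact ((h.pd i).pd i).integrable_mul ((h.pd j).pd j)
  rw [integral_finsetSum _ (fun i _ => integrable_finsetSum _ (fun j _ => hsq i j)),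
    integral_finsetSum _ (fun i _ => integrable_finsetSum _ (fun j _ => hmul i j))]
  refine Finset.sum_congr rfl fun i _ => ?_
  rw [integral_finsetSum _ (fun j _ => hsq i j), integral_finsetSum _ (fun j _ => hmul i j)]
  refine Finset.sum_congr rfl fun j _ => ?_
  have e1 : ∫ x, pd i (pd j φ) x ^ 2 = ∫ x, pd i (pd j φ) x * pd i (pd j φ) x := by
    congr 1; funext x; ring
  rw [e1, ibp ((h.pd j).pd i) (h.pd j) i, pd_comm (h.pd j) i i]
  have e2 : pd i (pd i (pd j φ)) = pd j (pd i (pd i φ)) := by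
    rw [pd_comm h i j, pd_comm (h.pd i) i j]
  rw [e2]
  have := ibp ((h.pd i).pd i) (h.pd j) j
  rw [this]

end Pool.PlateCompliance
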