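import Mathlib
import Pool.Agent.PlateCompliance.Basic

set_option autoImplicit false

open Filter Topology MeasureTheory
open scoped NNReal ENNReal

namespace Pool.PlateCompliance

variable {N : ℕ} {Ω : Set (Eu N)} {φ ψ : Eu N → ℝ}

/-- The operator norm is controlled by the values on the coordinate vectors. -/
theorem norm_sq_le {F : Type*} [NormedAddCommGroup F] [NormedSpace ℝ F] (L : Eu N →L[ℝ] F) :
    ‖L‖ ^ 2 ≤ ∑ i, ‖L (ev i)‖ ^ 2 := by
  have hs : 0 ≤ ∑ i, ‖L (ev i)‖ ^ 2 := Finset.sum_nonneg fun i _ => sq_nonneg _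
  have h : ‖L‖ ≤ Real.sqrt (∑ i, ‖L (ev i)‖ ^ 2) := by
    refine L.opNorm_le_bound (Real.sqrt_nonneg _) fun v => ?_
    have hv : v = ∑ i, v i • (ev i : Eu N) := by
      ext k
      simp [Pi.single_apply]
    have e1 : L v = ∑ i, v i • L (ev i) := by
      conv_lhs => rw [hv]
      rw [map_sum]
      refine Finset.sum_congr rfl fun i _ => ?_
      rw [map_smul]
    rw [e1]
    calc ‖∑ i, v i • L (ev i)‖ ≤ ∑ i, ‖v i • L (ev i)‖ := norm_sum_le _ _
      _ = ∑ i, ‖L (ev i)‖ * |v i| := by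
          refine Finset.sum_congr rfl fun i _ => ?_
          rw [norm_smul, Real.norm_eq_abs, mul_comm]
      _ ≤ Real.sqrt (∑ i, ‖L (ev i)‖ ^ 2) * Real.sqrt (∑ i, |v i| ^ 2) :=
          Real.sum_mul_le_sqrt_mul_sqrt _ _ _
      _ = Real.sqrt (∑ i, ‖L (ev i)‖ ^ 2) * ‖v‖ := by
          rw [EuclideanSpace.norm_eq]
          simp
  calc ‖L‖ ^ 2 ≤ (Real.sqrt (∑ i, ‖L (ev i)‖ ^ 2)) ^ 2 :=
        pow_le_pow_left₀ (norm_nonneg _) h 2
    _ = _ := Real.sq_sqrt hs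

theorem grad_sq_le (φ : Eu N → ℝ) (x : Eu N) : ‖fderiv ℝ φ x‖ ^ 2 ≤ ∑ i, pd i φ x ^ 2 := by
  refine (norm_sq_le _).trans (le_of_eq ?_)
  refine Finset.sum_congr rfl fun i _ => ?_
  rw [Real.norm_eq_abs, sq_abs]; rfl

theorem hess_sq_le (h : IsTest Ω φ) (x : Eu N) :
    ‖fderiv ℝ (fderiv ℝ φ) x‖ ^ 2 ≤ ∑ i, ∑ j, pd i (pd j φ) x ^ 2 := by
  refine (norm_sq_le _).trans ?_
  refine Finset.sum_le_sum fun i _ => ?_
  refine (norm_sq_le _).trans (le_of_eq ?_)
  refine Finset.sum_congr rfl fun j _ => ?_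
  rw [Real.norm_eq_abs, sq_abs, snd_eq h]

theorem IsTest.integrable_sq (h : IsTest Ω φ) : Integrable (fun x => φ x ^ 2) :=
  (h.integrable_mul h).congr (Filter.Eventually.of_forall fun x => by simp only; ring)

theorem IsTest.integrable_pdsq (h : IsTest Ω φ) :
    Integrable (fun x => ∑ i, Pool.PlateCompliance.pd i φ x ^ 2) :=
  integrable_finsetSum _ fun i _ => (h.pd i).integrable_sq

theorem IsTest.continuous_fderiv (h : IsTest Ω φ) : Continuous (fderiv ℝ φ) :=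
  h.1.continuous_fderiv (by simp)

theorem IsTest.integrable_grad (h : IsTest Ω φ) : Integrable (fun x => ‖fderiv ℝ φ x‖ ^ 2) := by
  refine Continuous.integrable_of_hasCompactSupport (h.continuous_fderiv.norm.pow 2) ?_
  have := (h.2.1.fderiv (𝕜 := ℝ)).norm
  exact this.comp_left (g := fun t : ℝ => t ^ 2) (by simp)

/-- Poincaré inequality on sets of finite measure, from the Gagliardo-Nirenberg-Sobolev inequality. -/
theorem poincare_grad (hN : 2 ≤ N) (hΩ : volume Ω < ⊤) :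
    ∃ K : ℝ, 0 ≤ K ∧ ∀ φ : Eu N → ℝ, IsTest Ω φ →
      ∫ x, φ x ^ 2 ≤ K * ∫ x, ∑ i, pd i φ x ^ 2 := by
  have hfr : Module.finrank ℝ (Eu N) = N := by simp
  have hN1 : (1 : ℝ≥0) < (N : ℝ≥0) := by exact_mod_cast hN
  obtain ⟨p, hp⟩ : ∃ p : ℝ≥0, NNReal.HolderConjugate (N : ℝ≥0) p :=
    ⟨_, NNReal.HolderConjugate.conjExponent hN1⟩
  have hp' : NNReal.HolderConjugate (Module.finrank ℝ (Eu N)) p := by rw [hfr]; exact hp
  set C0 : ℝ≥0 := eLpNormLESNormFDerivOneConst (volume : Measure (Eu N)) p with hC0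
  set M : ℝ≥0∞ := (volume Ω) ^ (1 / (1 : ℝ≥0∞).toReal - 1 / ((p : ℝ≥0∞)).toReal) with hM
  have hp1 : (1 : ℝ≥0) ≤ p := hp.symm.lt.le
  have hMtop : M ≠ ⊤ := by
    rw [hM]
    apply ENNReal.rpow_ne_top_of_nonneg
    · simp only [ENNReal.toReal_one, div_one, ENNReal.coe_toReal, one_div, sub_nonneg]
      exact inv_le_one_of_one_le₀ (by exact_mod_cast hp1)
    · exact hΩ.ne
  set K : ℝ := (C0 : ℝ) * M.toReal with hK
  have hK0 : 0 ≤ K := by positivity
  refine ⟨4 * K ^ 2, by positivity, fun φ h => ?_⟩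
  -- the function v = φ²
  set v : Eu N → ℝ := fun x => φ x ^ 2 with hv
  have hvd : ContDiff ℝ 1 v := (h.1.of_le (by norm_cast)).pow 2
  have hvc : HasCompactSupport v := h.2.1.comp_left (g := fun t : ℝ => t ^ 2) (by simp)
  have hvs : Function.support v ⊆ Ω := by
    intro x hx
    apply h.2.2
    apply subset_tsupport
    intro h0
    apply hx
    simp [hv, h0]
  have g1 := eLpNorm_le_eLpNorm_fderiv_one (volume : Measure (Eu N)) hvd hvc hp'
  have g2 : eLpNorm v 1 volume ≤ eLpNorm v p volume * M := by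
    have e := eLpNorm_le_eLpNorm_mul_rpow_measure_univ (μ := (volume : Measure (Eu N)).restrict Ω)
      (p := 1) (q := (p : ℝ≥0∞)) (f := v) (by exact_mod_cast hp1)
      hvd.continuous.aestronglyMeasurable
    rw [eLpNorm_restrict_eq_of_support_subset hvs, eLpNorm_restrict_eq_of_support_subset hvs] at e
    simpa [hM] using e
  have g3 : eLpNorm v 1 volume ≤ ENNReal.ofReal K * eLpNorm (fderiv ℝ v) 1 volume := by
    refine g2.trans ?_
    have : ENNReal.ofReal K = (C0 : ℝ≥0∞) * M := by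
      rw [hK, ENNReal.ofReal_mul (by positivity), ENNReal.ofReal_coe_nnreal,
        ENNReal.ofReal_toReal hMtop]
    rw [this]
    calc eLpNorm v p volume * M ≤ (C0 * eLpNorm (fderiv ℝ v) 1 volume) * M := by gcongr
      _ = _ := by ring
  have hfdint : Integrable (fderiv ℝ v) :=
    (hvd.continuous_fderiv (by simp)).integrable_of_hasCompactSupport (hvc.fderiv (𝕜 := ℝ))
  have hvint : Integrable v := hvd.continuous.integrable_of_hasCompactSupport hvc
  rw [eLpNorm_one_eq_lintegral_enorm, eLpNorm_one_eq_lintegral_enorm,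
    ← ofReal_integral_norm_eq_lintegral_enorm hvint,
    ← ofReal_integral_norm_eq_lintegral_enorm hfdint, ← ENNReal.ofReal_mul hK0] at g3
  have g4 : ∫ x, ‖v x‖ ≤ K * ∫ x, ‖fderiv ℝ v x‖ := by
    refine (ENNReal.ofReal_le_ofReal_iff ?_).mp g3
    exact mul_nonneg hK0 (integral_nonneg fun x => norm_nonneg _)
  have hvn : ∀ x, ‖v x‖ = φ x ^ 2 := by
    intro x; rw [Real.norm_eq_abs, abs_of_nonneg (sq_nonneg _)]
  simp_rw [hvn] at g4
  have hfd : ∀ x, K * ‖fderiv ℝ v x‖ ≤ φ x ^ 2 / 2 + 2 * K ^ 2 * ∑ i, pd i φ x ^ 2 := by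
    intro x
    have e : fderiv ℝ v x = (2 * φ x) • fderiv ℝ φ x := by
      have := ((h.differentiable x).hasFDerivAt.pow 2).fderiv
      show fderiv ℝ (fun x => φ x ^ 2) x = _
      rw [this]; simp
    rw [e, norm_smul]
    have hg := grad_sq_le φ x
    have hn : ‖(2 * φ x : ℝ)‖ = 2 * |φ x| := by
      rw [norm_mul, Real.norm_eq_abs, Real.norm_eq_abs]; norm_num
    rw [hn]
    have h3 : 0 ≤ (|φ x| - 2 * (K * ‖fderiv ℝ φ x‖)) ^ 2 := sq_nonneg _
    have h4 : |φ x| ^ 2 = φ x ^ 2 := sq_abs _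
    have h5 : K ^ 2 * ‖fderiv ℝ φ x‖ ^ 2 ≤ K ^ 2 * ∑ i, pd i φ x ^ 2 :=
      mul_le_mul_of_nonneg_left hg (sq_nonneg _)
    nlinarith
  have g5 : K * ∫ x, ‖fderiv ℝ v x‖ ≤ ∫ x, (φ x ^ 2 / 2 + 2 * K ^ 2 * ∑ i, pd i φ x ^ 2) := by
    rw [← integral_const_mul]
    refine integral_mono (hfdint.norm.const_mul K) ?_ hfd
    exact (h.integrable_sq.div_const 2).add (h.integrable_pdsq.const_mul _)
  rw [integral_add (h.integrable_sq.div_const 2) (h.integrable_pdsq.const_mul _),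
    integral_div, integral_const_mul] at g5
  show ∫ x, φ x ^ 2 ≤ _
  linarith

theorem poincare (hN : 2 ≤ N) (hΩ : volume Ω < ⊤) :
    ∃ K : ℝ, 0 ≤ K ∧ ∀ φ : Eu N → ℝ, IsTest Ω φ →
      (∫ x, φ x ^ 2 ≤ K * ∫ x, lap φ x ^ 2) ∧
      ∫ x, (φ x ^ 2 + ‖fderiv ℝ φ x‖ ^ 2 + ‖fderiv ℝ (fderiv ℝ φ) x‖ ^ 2)
        ≤ K * ∫ x, lap φ x ^ 2 := by
  obtain ⟨K, hK0, hK⟩ := poincare_grad hN hΩ
  refine ⟨K ^ 2 + K + 1, by positivity, fun φ h => ?_⟩
  have h1 := hK φ h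
  have hl : 0 ≤ ∫ x, lap φ x ^ 2 := integral_nonneg fun x => sq_nonneg _
  have hg := integral_grad h
  have hprod : Integrable (fun x => φ x * lap φ x) := h.integrable_mul h.lap
  -- K ∫|∇φ|² ≤ ∫ φ²/2 + K²/2 ∫ (lap φ)²
  have h2 : K * ∫ x, ∑ i, pd i φ x ^ 2 ≤ (∫ x, φ x ^ 2) / 2 + K ^ 2 / 2 * ∫ x, lap φ x ^ 2 := by
    rw [hg]
    have : K * -(∫ x, φ x * lap φ x) = ∫ x, (-K) * (φ x * lap φ x) := by
      rw [integral_const_mul]; ring
    rw [this, ← integral_div, ← integral_const_mul, ← integral_add (h.integrable_sq.div_const 2)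
      (h.lap.integrable_sq.const_mul _)]
    refine integral_mono (hprod.const_mul _)
      ((h.integrable_sq.div_const 2).add (h.lap.integrable_sq.const_mul _)) fun x => ?_
    simp only
    nlinarith [sq_nonneg (φ x + K * lap φ x)]
  have h3 : ∫ x, φ x ^ 2 ≤ K ^ 2 * ∫ x, lap φ x ^ 2 := by linarith
  -- ∫|∇φ|² ≤ K ∫ (lap φ)²
  have h4 : ∫ x, ∑ i, pd i φ x ^ 2 ≤ K * ∫ x, lap φ x ^ 2 := by
    by_cases hK1 : K = 0
    · rw [hK1] at h1 ⊢
      have h5 : ∫ x, φ x ^ 2 ≤ 0 := by simpa using h1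
      have h6 : (fun x => φ x ^ 2) =ᵐ[volume] 0 :=
        (integral_eq_zero_iff_of_nonneg (fun x => sq_nonneg _) h.integrable_sq).mp
          (le_antisymm h5 (integral_nonneg fun x => sq_nonneg _))
      have h7 : ∫ x, φ x * lap φ x = 0 := by
        have : (fun x => φ x * lap φ x) =ᵐ[volume] 0 := by
          filter_upwards [h6] with x hx
          have hx' : φ x ^ 2 = 0 := hx
          have : φ x = 0 := by simpa using hx'
          simp [this]
        rw [integral_congr_ae this]; simp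
      rw [hg, h7]; simp
    · have hKp : 0 < K := lt_of_le_of_ne hK0 (Ne.symm hK1)
      have h5 : K * ∫ x, ∑ i, pd i φ x ^ 2 ≤ K * (K * ∫ x, lap φ x ^ 2) := by nlinarith
      exact le_of_mul_le_mul_left h5 hKp
  constructor
  · nlinarith
  · have hh := integral_hess h
    have hi3 : Integrable (fun x => ∑ i, ∑ j, pd i (pd j φ) x ^ 2) :=
      integrable_finsetSum _ fun i _ => integrable_finsetSum _ fun j _ =>
        ((h.pd j).pd i).integrable_sq
    have h6 : ∫ x, (φ x ^ 2 + ‖fderiv ℝ φ x‖ ^ 2 + ‖fderiv ℝ (fderiv ℝ φ) x‖ ^ 2)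
        ≤ ∫ x, (φ x ^ 2 + (∑ i, pd i φ x ^ 2) + ∑ i, ∑ j, pd i (pd j φ) x ^ 2) := by
      refine integral_mono_of_nonneg (Filter.Eventually.of_forall fun x => by positivity)
        ((h.integrable_sq.add h.integrable_pdsq).add hi3)
        (Filter.Eventually.of_forall fun x => ?_)
      have a := grad_sq_le φ x
      have b := hess_sq_le h x
      simp only
      linarith
    have h7 : ∫ x, (φ x ^ 2 + (∑ i, pd i φ x ^ 2) + ∑ i, ∑ j, pd i (pd j φ) x ^ 2)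
        = (∫ x, φ x ^ 2) + (∫ x, ∑ i, pd i φ x ^ 2) + ∫ x, ∑ i, ∑ j, pd i (pd j φ) x ^ 2 := by
      have a := integral_add (h.integrable_sq.add h.integrable_pdsq) hi3
      have b := integral_add h.integrable_sq h.integrable_pdsq
      simp only [Pi.add_apply] at a
      rw [b] at a
      exact a
    rw [h7, hh] at h6
    nlinarith

theorem aux1 {F : Type*} [NormedAddCommGroup F] {f : Eu N → F} (hc : Continuous f)
    (hs : HasCompactSupport f) : Integrable (fun x => ‖f x‖ ^ 2) := by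
  have hc2 : Continuous (fun x => ‖f x‖ ^ 2) := hc.norm.pow 2
  refine hc2.integrable_of_hasCompactSupport ?_
  exact (hs.norm).comp_left (g := fun t : ℝ => t ^ 2) (by simp)

theorem aux3 (h : IsTest Ω φ) : HasCompactSupport (fderiv ℝ (fderiv ℝ φ)) := by
  have h1 : HasCompactSupport (fderiv ℝ φ) := h.2.1.fderiv (𝕜 := ℝ)
  exact h1.fderiv (𝕜 := ℝ)

theorem aux4 (h : IsTest Ω φ) : Continuous (fderiv ℝ (fderiv ℝ φ)) := by
  have hd : ContDiff ℝ 2 φ := h.1.of_le (by norm_cast)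
  have hd1 : ContDiff ℝ 1 (fderiv ℝ φ) := hd.fderiv_right (m := 1) (by norm_num)
  exact hd1.continuous_fderiv (by simp)

theorem aux5 (h : IsTest Ω φ) : Integrable (fun x => ‖fderiv ℝ (fderiv ℝ φ) x‖ ^ 2) := by
  have hc := aux4 h
  have hs := aux3 h
  exact aux1 (F := Eu N →L[ℝ] Eu N →L[ℝ] ℝ) (f := fderiv ℝ (fderiv ℝ φ)) hc hs

theorem IsTest.integrable_H2 (h : IsTest Ω φ) :
    Integrable (fun x => φ x ^ 2 + ‖fderiv ℝ φ x‖ ^ 2 + ‖fderiv ℝ (fderiv ℝ φ) x‖ ^ 2) :=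
  (h.integrable_sq.add h.integrable_grad).add (aux5 h)

theorem lap_sq_le (h : IsTest Ω φ) (x : Eu N) :
    lap φ x ^ 2 ≤ (N : ℝ) ^ 2 * ‖fderiv ℝ (fderiv ℝ φ) x‖ ^ 2 := by
  have hb : |lap φ x| ≤ (N : ℝ) * ‖fderiv ℝ (fderiv ℝ φ) x‖ := by
    have h1 : |lap φ x| ≤ ∑ i : Fin N, |pd i (pd i φ) x| := by
      simp only [lap]; exact Finset.abs_sum_le_sum_abs _ _
    refine h1.trans ?_
    have h2 : ∀ i : Fin N, |pd i (pd i φ) x| ≤ ‖fderiv ℝ (fderiv ℝ φ) x‖ := by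
      intro i
      rw [← snd_eq h, ← Real.norm_eq_abs]
      have e1 := (fderiv ℝ (fderiv ℝ φ) x (ev i)).le_opNorm (ev i)
      have e2 := (fderiv ℝ (fderiv ℝ φ) x).le_opNorm (ev i)
      have e3 : ‖(ev i : Eu N)‖ = 1 := by simp
      rw [e3, mul_one] at e1 e2
      exact e1.trans e2
    calc ∑ i : Fin N, |pd i (pd i φ) x| ≤ ∑ _i : Fin N, ‖fderiv ℝ (fderiv ℝ φ) x‖ :=
          Finset.sum_le_sum fun i _ => h2 i
      _ = _ := by simp
  calc lap φ x ^ 2 = |lap φ x| ^ 2 := (sq_abs _).symm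
    _ ≤ ((N : ℝ) * ‖fderiv ℝ (fderiv ℝ φ) x‖) ^ 2 := pow_le_pow_left₀ (abs_nonneg _) hb 2
    _ = _ := by ring

end Pool.PlateCompliance
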