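import Mathlib

set_option autoImplicit false

open Filter Topology

namespace Pool.PlateCompliance

/-- Riesz representation through an approximating sequence. -/
theorem riesz_seq {V : Type*} [AddCommGroup V] [Module ℝ V] {H : Type*}
    [NormedAddCommGroup H] [InnerProductSpace ℝ H] [CompleteSpace H]
    (D : V →ₗ[ℝ] H) (L : V →ₗ[ℝ] ℝ) (C : ℝ) (hC : ∀ v, |L v| ≤ C * ‖D v‖) :
    ∃ (g : H) (v : ℕ → V), Tendsto (fun n => D (v n)) atTop (𝓝 g) ∧
      ∀ w, inner ℝ g (D w) = L w := by
  classical
  have hwd : ∀ a b : V, D a = D b → L a = L b := by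
    intro a b hab
    have h := hC (a - b)
    rw [map_sub, map_sub, hab, sub_self, norm_zero, mul_zero] at h
    have := abs_nonneg (L a - L b)
    have h0 : |L a - L b| = 0 := le_antisymm h this
    have := abs_eq_zero.mp h0
    linarith
  set S : Submodule ℝ H := LinearMap.range D with hS
  have hch : ∀ s : S, ∃ v : V, D v = (s : H) := fun s => s.2
  choose pre hpre using hch
  let ℓ : S →ₗ[ℝ] ℝ :=
    { toFun := fun s => L (pre s)
      map_add' := by
        intro a b
        rw [← map_add]
        apply hwd
        rw [hpre, map_add, hpre, hpre]; rfl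
      map_smul' := by
        intro c a
        simp only [RingHom.id_apply]
        rw [← map_smul]
        apply hwd
        rw [hpre, map_smul, hpre]; rfl }
  let ℓc : S →L[ℝ] ℝ := ℓ.mkContinuous C (by
    intro s
    show |L (pre s)| ≤ C * ‖s‖
    have := hC (pre s)
    rwa [hpre] at this)
  obtain ⟨f, hf, -⟩ := exists_extension_norm_eq S ℓc
  set s0 : H := (InnerProductSpace.toDual ℝ H).symm f with hs0
  have hs : ∀ w : V, inner ℝ s0 (D w) = L w := by
    intro w
    rw [hs0, InnerProductSpace.toDual_symm_apply]
    have h1 := hf ⟨D w, ⟨w, rfl⟩⟩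
    simp only at h1
    rw [h1]
    show L (pre _) = L w
    apply hwd
    rw [hpre]
  have : CompleteSpace (S.topologicalClosure) :=
    (S.isClosed_topologicalClosure).completeSpace_coe
  set K := S.topologicalClosure with hK
  let g : H := ((K.orthogonalProjectionOnto s0 : K) : H)
  have hgK : g ∈ K := (K.orthogonalProjectionOnto s0).2
  have hgcl : g ∈ closure (S : Set H) := hgK
  obtain ⟨x, hxS, hx⟩ := mem_closure_iff_seq_limit.mp hgcl
  choose v hv using hxS
  refine ⟨g, v, ?_, ?_⟩
  · have : (fun n => D (v n)) = x := by funext n; exact hv n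
    rw [this]; exact hx
  · intro w
    rw [← hs w]
    have hDw : D w ∈ K := S.le_topologicalClosure ⟨w, rfl⟩
    have h2 := Submodule.inner_orthogonalProjectionOnto_eq_of_mem_right (K := K) ⟨D w, hDw⟩ s0
    exact h2

end Pool.PlateCompliance
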