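import Mathlib
import Pool.Agent.PlateCompliance.Basic
import Pool.Agent.PlateCompliance.Riesz
import Pool.Agent.PlateCompliance.Poincare

set_option autoImplicit false

open Filter Topology MeasureTheory
open scoped NNReal ENNReal

namespace Pool.PlateCompliance

variable {N : ℕ} {Ω : Set (Eu N)} {φ ψ : Eu N → ℝ}

/-- `u` belongs to `H²₀(Ω)` (as in the frozen statement). -/
def InH20 (Ω : Set (Eu N)) (u : Eu N → ℝ) : Prop :=
  MemLp u 2 volume ∧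
  ∃ φ : ℕ → Eu N → ℝ,
     (∀ n, IsTest Ω (φ n)) ∧
     (∀ ε : ℝ, 0 < ε → ∃ K : ℕ, ∀ n, K ≤ n → ∀ k, K ≤ k →
        ∫ x, ((φ n x - φ k x) ^ 2 + ‖fderiv ℝ (φ n - φ k) x‖ ^ 2
              + ‖fderiv ℝ (fderiv ℝ (φ n - φ k)) x‖ ^ 2) < ε) ∧
     Filter.Tendsto (fun n => ∫ x, (φ n x - u x) ^ 2) Filter.atTop (nhds 0)

/-- `u` is the deflection of the clamped plate `Ω` under the load `ρ`. -/
def IsDeflection (Ω : Set (Eu N)) (ρ u : Eu N → ℝ) : Prop :=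
  InH20 Ω u ∧ ∀ ψ : Eu N → ℝ, IsTest Ω ψ → ∫ x, u x * bilap ψ x = ∫ x, ρ x * ψ x

/-- admissible loads -/
def IsLoad (Ω : Set (Eu N)) (ρ : Eu N → ℝ) : Prop :=
  Measurable ρ ∧ ∀ x ∈ Ω, |ρ x| ≤ 1

/-- The space of test functions. -/
def VV (Ω : Set (Eu N)) : Submodule ℝ (Eu N → ℝ) where
  carrier := {φ | IsTest Ω φ}
  add_mem' := fun ha hb => ha.add hb
  zero_mem' := IsTest.zero
  smul_mem' := fun c _ ha => ha.smul c

/-- `L²` -/
noncomputable abbrev HH (N : ℕ) := Lp ℝ 2 (volume : Measure (Eu N))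

noncomputable def JJ (Ω : Set (Eu N)) : VV Ω →ₗ[ℝ] HH N where
  toFun φ := (IsTest.memLp φ.2 2).toLp (φ : Eu N → ℝ)
  map_add' a b := by
    rw [← MemLp.toLp_add]; rfl
  map_smul' c a := by
    rw [RingHom.id_apply, ← MemLp.toLp_const_smul]; rfl

noncomputable def DD (Ω : Set (Eu N)) : VV Ω →ₗ[ℝ] HH N where
  toFun φ := (IsTest.memLp (IsTest.lap φ.2) 2).toLp (lap (φ : Eu N → ℝ))
  map_add' a b := by
    rw [← MemLp.toLp_add]
    have : lap ((a + b : VV Ω) : Eu N → ℝ) = lap (a : Eu N → ℝ) + lap (b : Eu N → ℝ) :=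
      lap_add a.2 b.2
    exact MemLp.toLp_congr _ _ (by rw [this])
  map_smul' c a := by
    rw [RingHom.id_apply, ← MemLp.toLp_const_smul]
    have : lap ((c • a : VV Ω) : Eu N → ℝ) = c • lap (a : Eu N → ℝ) := lap_smul c a.2
    exact MemLp.toLp_congr _ _ (by rw [this])

theorem inner_toLp {f g : Eu N → ℝ} (hf : MemLp f 2 volume) (hg : MemLp g 2 volume) :
    inner ℝ (hf.toLp f) (hg.toLp g) = ∫ x, f x * g x := by
  rw [L2.inner_def]
  apply integral_congr_ae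
  filter_upwards [hf.coeFn_toLp, hg.coeFn_toLp] with x h1 h2
  rw [h1, h2]
  simp [mul_comm]

theorem norm_toLp_sq {f : Eu N → ℝ} (hf : MemLp f 2 volume) :
    ‖hf.toLp f‖ ^ 2 = ∫ x, f x ^ 2 := by
  rw [← real_inner_self_eq_norm_sq, inner_toLp]
  congr 1; funext x; ring

/-- truncated load -/
theorem memLp_load (hO : IsOpen Ω) (hΩ : volume Ω < ⊤) {ρ : Eu N → ℝ} (hρ : IsLoad Ω ρ) :
    MemLp (Ω.indicator ρ) 2 volume := by
  have hm : MeasurableSet Ω := hO.measurableSet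
  rw [memLp_indicator_iff_restrict hm]
  have : IsFiniteMeasure ((volume : Measure (Eu N)).restrict Ω) := ⟨by simpa using hΩ⟩
  refine MemLp.of_bound hρ.1.aestronglyMeasurable 1 ?_
  refine (ae_restrict_iff' hm).mpr (Filter.Eventually.of_forall fun x hx => ?_)
  rw [Real.norm_eq_abs]; exact hρ.2 x hx

theorem inner_load (hO : IsOpen Ω) (hΩ : volume Ω < ⊤) {ρ : Eu N → ℝ} (hρ : IsLoad Ω ρ)
    {u : Eu N → ℝ} (hu : MemLp u 2 volume) :
    inner ℝ ((memLp_load hO hΩ hρ).toLp _) (hu.toLp u) = ∫ x in Ω, ρ x * u x := by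
  rw [inner_toLp, ← integral_indicator hO.measurableSet]
  congr 1; funext x
  by_cases hx : x ∈ Ω <;> simp [hx]

theorem inner_load_test (hO : IsOpen Ω) (hΩ : volume Ω < ⊤) {ρ : Eu N → ℝ} (hρ : IsLoad Ω ρ)
    (ψ : VV Ω) :
    inner ℝ ((memLp_load hO hΩ hρ).toLp _) (JJ Ω ψ) = ∫ x, ρ x * (ψ : Eu N → ℝ) x := by
  show inner ℝ ((memLp_load hO hΩ hρ).toLp _) ((IsTest.memLp ψ.2 2).toLp (ψ : Eu N → ℝ)) = _
  rw [inner_toLp]
  congr 1; funext x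
  by_cases hx : x ∈ Ω
  · simp [hx]
  · have h0 : (ψ : Eu N → ℝ) x = 0 := by
      by_contra hne
      exact hx (ψ.2.2.2 (subset_tsupport _ hne))
    simp [h0]

theorem inner_bilap {w : Eu N → ℝ} (hw : MemLp w 2 volume) (ψ : VV Ω)
    (hb : MemLp (bilap (ψ : Eu N → ℝ)) 2 volume) :
    inner ℝ (hw.toLp w) (hb.toLp _) = ∫ x, w x * bilap (ψ : Eu N → ℝ) x := inner_toLp _ _

theorem memLp_bilap (ψ : VV Ω) : MemLp (bilap (ψ : Eu N → ℝ)) 2 volume := by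
  rw [bilap_eq ψ.2]
  exact (IsTest.memLp (IsTest.lap (IsTest.lap ψ.2)) 2)

theorem inner_JJ_bilap (φ ψ : VV Ω) :
    inner ℝ (JJ Ω φ) ((memLp_bilap ψ).toLp _) = inner ℝ (DD Ω φ) (DD Ω ψ) := by
  show inner ℝ ((IsTest.memLp φ.2 2).toLp (φ : Eu N → ℝ)) _ =
    inner ℝ ((IsTest.memLp (IsTest.lap φ.2) 2).toLp (lap (φ : Eu N → ℝ)))
      ((IsTest.memLp (IsTest.lap ψ.2) 2).toLp (lap (ψ : Eu N → ℝ)))
  rw [inner_toLp, inner_toLp]
  exact integral_bilap φ.2 ψ.2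

theorem norm_DD_sq (φ : VV Ω) : ‖DD Ω φ‖ ^ 2 = ∫ x, lap (φ : Eu N → ℝ) x ^ 2 :=
  norm_toLp_sq (IsTest.memLp (IsTest.lap φ.2) 2)

theorem norm_JJ_sq (φ : VV Ω) : ‖JJ Ω φ‖ ^ 2 = ∫ x, (φ : Eu N → ℝ) x ^ 2 :=
  norm_toLp_sq (IsTest.memLp φ.2 2)

/-- Hilbert space data attached to a deflection. -/
theorem deflection_data (hO : IsOpen Ω) (hΩ : volume Ω < ⊤) {ρ u : Eu N → ℝ}
    (hρ : IsLoad Ω ρ) (hd : IsDeflection Ω ρ u) :
    ∃ (g : HH N) (v : ℕ → VV Ω),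
      Tendsto (fun n => DD Ω (v n)) atTop (𝓝 g) ∧
      Tendsto (fun n => JJ Ω (v n)) atTop (𝓝 (hd.1.1.toLp u)) ∧
      ∀ ψ : VV Ω, inner ℝ g (DD Ω ψ) = inner ℝ ((memLp_load hO hΩ hρ).toLp _) (JJ Ω ψ) := by
  obtain ⟨⟨hu, φ, hφ, hc, ht⟩, hw⟩ := hd
  set v : ℕ → VV Ω := fun n => ⟨φ n, hφ n⟩ with hv
  have hJ : Tendsto (fun n => JJ Ω (v n)) atTop (𝓝 (hu.toLp u)) := by
    rw [tendsto_iff_norm_sub_tendsto_zero]
    have e : ∀ n, ‖JJ Ω (v n) - hu.toLp u‖ = Real.sqrt (∫ x, (φ n x - u x) ^ 2) := by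
      intro n
      have e1 : JJ Ω (v n) - hu.toLp u = (((hφ n).memLp 2).sub hu).toLp (φ n - u) := by
        rw [MemLp.toLp_sub ((hφ n).memLp 2) hu]; rfl
      have e2 := norm_toLp_sq (((hφ n).memLp 2).sub hu)
      rw [e1]
      have e3 : (∫ x, (φ n x - u x) ^ 2) = ∫ x, (φ n - u) x ^ 2 := rfl
      rw [e3, ← e2, Real.sqrt_sq (norm_nonneg _)]
    simp_rw [e]
    have := ht.sqrt
    simpa using this
  have hDc : CauchySeq (fun n => DD Ω (v n)) := by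
    rw [Metric.cauchySeq_iff]
    intro ε hε
    obtain ⟨K, hK⟩ := hc (ε ^ 2 / ((N : ℝ) ^ 2 + 1)) (by positivity)
    refine ⟨K, fun m hm n hn => ?_⟩
    rw [dist_eq_norm, ← map_sub]
    have h1 := norm_DD_sq (v m - v n)
    have ht' : IsTest Ω (φ m - φ n) := (hφ m).sub (hφ n)
    have h2 : ∫ x, lap (φ m - φ n) x ^ 2 ≤ (N : ℝ) ^ 2 * ∫ x, ((φ m x - φ n x) ^ 2
        + ‖fderiv ℝ (φ m - φ n) x‖ ^ 2 + ‖fderiv ℝ (fderiv ℝ (φ m - φ n)) x‖ ^ 2) := by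
      rw [← integral_const_mul]
      refine integral_mono_of_nonneg (Filter.Eventually.of_forall fun x => sq_nonneg _)
        (ht'.integrable_H2.const_mul _) (Filter.Eventually.of_forall fun x => ?_)
      have := lap_sq_le ht' x
      simp only [Pi.sub_apply]
      nlinarith [sq_nonneg (φ m x - φ n x), sq_nonneg ‖fderiv ℝ (φ m - φ n) x‖,
        sq_nonneg (N : ℝ), mul_nonneg (sq_nonneg (N : ℝ)) (sq_nonneg (φ m x - φ n x)),
        mul_nonneg (sq_nonneg (N : ℝ)) (sq_nonneg ‖fderiv ℝ (φ m - φ n) x‖)]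
    have h3 := hK m hm n hn
    have h4 : ‖DD Ω (v m - v n)‖ ^ 2 < ε ^ 2 := by
      rw [h1]
      refine lt_of_le_of_lt h2 ?_
      have hn0 : (0:ℝ) ≤ (N : ℝ) ^ 2 := sq_nonneg _
      have hp : (0:ℝ) < (N : ℝ) ^ 2 + 1 := by positivity
      have hnn : 0 ≤ ∫ x, ((φ m x - φ n x) ^ 2
        + ‖fderiv ℝ (φ m - φ n) x‖ ^ 2 + ‖fderiv ℝ (fderiv ℝ (φ m - φ n)) x‖ ^ 2) :=
        integral_nonneg fun x => by positivity
      rw [lt_div_iff₀ hp] at h3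
      nlinarith
    exact lt_of_pow_lt_pow_left₀ 2 hε.le h4
  obtain ⟨g, hg⟩ := cauchySeq_tendsto_of_complete hDc
  refine ⟨g, v, hg, hJ, fun ψ => ?_⟩
  have t1 : Tendsto (fun n => inner ℝ (DD Ω (v n)) (DD Ω ψ)) atTop (𝓝 (inner ℝ g (DD Ω ψ))) :=
    hg.inner tendsto_const_nhds
  have t2 : Tendsto (fun n => inner ℝ (JJ Ω (v n)) ((memLp_bilap ψ).toLp _)) atTop
      (𝓝 (inner ℝ (hu.toLp u) ((memLp_bilap ψ).toLp _))) :=
    hJ.inner tendsto_const_nhds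
  simp_rw [inner_JJ_bilap] at t2
  have t3 := tendsto_nhds_unique t1 t2
  rw [t3, inner_toLp, hw ψ ψ.2, inner_load_test hO hΩ hρ ψ]

/-- Existence of deflections. -/
theorem exists_deflection (hN : 2 ≤ N) (hO : IsOpen Ω) (hΩ : volume Ω < ⊤) {σ : Eu N → ℝ}
    (hσ : IsLoad Ω σ) : ∃ w, IsDeflection Ω σ w := by
  obtain ⟨K, hK0, hK⟩ := poincare hN hΩ
  set s := (memLp_load hO hΩ hσ).toLp _ with hs
  have hJD : ∀ v : VV Ω, ‖JJ Ω v‖ ≤ Real.sqrt K * ‖DD Ω v‖ := by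
    intro v
    have h1 := (hK v v.2).1
    rw [← norm_DD_sq, ← norm_JJ_sq] at h1
    have h2 : ‖JJ Ω v‖ ^ 2 ≤ (Real.sqrt K * ‖DD Ω v‖) ^ 2 := by
      rw [mul_pow, Real.sq_sqrt hK0]; exact h1
    exact le_of_sq_le_sq h2 (by positivity)
  let L : VV Ω →ₗ[ℝ] ℝ := (innerSL ℝ s).toLinearMap ∘ₗ JJ Ω
  obtain ⟨g, v, hv, hg⟩ := riesz_seq (DD Ω) L (‖s‖ * Real.sqrt K) (by
    intro v
    show |inner ℝ s (JJ Ω v)| ≤ _
    refine (abs_real_inner_le_norm _ _).trans ?_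
    rw [mul_assoc]
    exact mul_le_mul_of_nonneg_left (hJD v) (norm_nonneg _))
  have hDc : CauchySeq (fun n => DD Ω (v n)) := hv.cauchySeq
  have hJc : CauchySeq (fun n => JJ Ω (v n)) := by
    rw [Metric.cauchySeq_iff] at hDc ⊢
    intro ε hε
    obtain ⟨M, hM⟩ := hDc (ε / (Real.sqrt K + 1)) (by positivity)
    refine ⟨M, fun m hm n hn => ?_⟩
    have h1 := hM m hm n hn
    rw [dist_eq_norm, ← map_sub] at h1 ⊢
    rw [lt_div_iff₀ (by positivity)] at h1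
    have h2 := hJD (v m - v n)
    have h3 : 0 ≤ ‖DD Ω (v m - v n)‖ := norm_nonneg _
    nlinarith
  obtain ⟨W, hW⟩ := cauchySeq_tendsto_of_complete hJc
  have hWm : MemLp (W : Eu N → ℝ) 2 volume := Lp.memLp W
  have hWe : hWm.toLp (W : Eu N → ℝ) = W := Lp.toLp_coeFn W hWm
  refine ⟨W, ⟨hWm, fun n => (v n : Eu N → ℝ), fun n => (v n).2, ?_, ?_⟩, ?_⟩
  · intro ε hε
    rw [Metric.cauchySeq_iff] at hDc
    obtain ⟨M, hM⟩ := hDc (Real.sqrt (ε / (K + 1))) (by positivity)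
    refine ⟨M, fun n hn k hk => ?_⟩
    have h1 := hM n hn k hk
    rw [dist_eq_norm, ← map_sub] at h1
    have h2 : ‖DD Ω (v n - v k)‖ ^ 2 < ε / (K + 1) := by
      have := pow_lt_pow_left₀ h1 (norm_nonneg _) (two_ne_zero)
      rwa [Real.sq_sqrt (by positivity)] at this
    rw [norm_DD_sq, lt_div_iff₀ (by positivity)] at h2
    have h3 := (hK _ (v n - v k).2).2
    have h4 : 0 ≤ ∫ x, lap ((v n - v k : VV Ω) : Eu N → ℝ) x ^ 2 :=
      integral_nonneg fun x => sq_nonneg _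
    refine lt_of_le_of_lt ?_ h2
    refine le_trans h3 ?_
    nlinarith
  · have e : ∀ n, ∫ x, ((v n : Eu N → ℝ) x - W x) ^ 2 = ‖JJ Ω (v n) - W‖ ^ 2 := by
      intro n
      have hvm : MemLp ((v n : VV Ω) : Eu N → ℝ) 2 volume := IsTest.memLp (v n).2 2
      have e1 : JJ Ω (v n) - W = (hvm.sub hWm).toLp _ := by
        rw [MemLp.toLp_sub hvm hWm, hWe]; rfl
      rw [e1, norm_toLp_sq]
      rfl
    simp_rw [e]
    have := (tendsto_iff_norm_sub_tendsto_zero.mp hW).pow 2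
    simpa using this
  · intro ψ hψ
    set ψ' : VV Ω := ⟨ψ, hψ⟩
    have t1 : Tendsto (fun n => inner ℝ (DD Ω (v n)) (DD Ω ψ')) atTop
        (𝓝 (inner ℝ g (DD Ω ψ'))) := hv.inner tendsto_const_nhds
    have t2 : Tendsto (fun n => inner ℝ (JJ Ω (v n)) ((memLp_bilap ψ').toLp _)) atTop
        (𝓝 (inner ℝ W ((memLp_bilap ψ').toLp _))) := hW.inner tendsto_const_nhds
    simp_rw [inner_JJ_bilap] at t2
    have t3 := tendsto_nhds_unique t1 t2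
    rw [hg ψ'] at t3
    have t4 : inner ℝ W ((memLp_bilap ψ').toLp _) = ∫ x, W x * bilap ψ x := by
      conv_lhs => rw [← hWe]
      exact inner_toLp _ _
    have t5 : L ψ' = ∫ x, σ x * ψ x := inner_load_test hO hΩ hσ ψ'
    rw [t4, t5] at t3
    exact t3.symm

end Pool.PlateCompliance
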